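import Pool.Agent.H99.FI.Limit.Main
import Pool.Agent.H99.FI.Noise.Out
import Pool.Agent.H99.FI.Final.Main

/-!
# FI: M1, M2 and H together

The factor map and the final statement, from the four window inputs of job M1.
-/

set_option autoImplicit false

namespace FI

open MeasureTheory
open scoped Classical

/-- the factor map, from the four inputs -/
theorem factor_of_windows {d : ℕ} [NeZero d] (hd : 3 ≤ d) (hlaw : LawWindow d)
    (hstab : StabWindow d) (hcost : CostWindow d) (hkern : KernCons d)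
    {V : Type} (G : SimpleGraph V) (hG : IsRegTree G d) :
    ∃ φ, IsFactorMap G d φ ∧ ∀ᵐ ω ∂(iidP V), Proper G d (φ ω) :=
  Lim.M2_of_M1 (M1_out_of hd hlaw hstab hcost hkern) hG

/-- the final statement, from the four inputs -/
theorem final_of_windows {d : ℕ} [NeZero d] (hd : 3 ≤ d) (hlaw : LawWindow d)
    (hstab : StabWindow d) (hcost : CostWindow d) (hkern : KernCons d)
    {V : Type} (G : SimpleGraph V) (hG : IsRegTree G d) :
    ∃ μ : Measure (G.edgeSet → Fin d),
      IsProbabilityMeasure μ ∧ (∀ᵐ c ∂μ, Proper G d c) ∧ (∀ γ : G ≃g G, μ.map (actE G d γ) = μ) ∧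
      (∀ o, IsMu G d o μ) ∧ (∀ o μ', IsMu G d o μ' → μ' = μ) ∧
      (∀ ν : Measure (G.edgeSet → Fin d), IsProbabilityMeasure ν → (∀ᵐ c ∂ν, Proper G d c) →
        (∀ γ : G ≃g G, ν.map (actE G d γ) = ν) → ν = μ) ∧
      IsFIID G d μ :=
  final_of_factor G d hG (factor_of_windows hd hlaw hstab hcost hkern G hG)

end FI
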