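import Pool.Agent.H99.FI.Limit.Meas

/-!
# FI, job M2: convergence and consistency for a fixed injective labelling
-/

set_option autoImplicit false

namespace FI.Lim

open Finset Function MeasureTheory
open scoped Classical

/-- output of job M1, as a proposition -/
def M1Out (d : ℕ) [NeZero d] : Prop :=
  ∃ (P : ℕ → Par) (p : ℕ → ℝ) (ρ : ℕ → ℕ) (c ε : ℕ → ℝ),
    (∀ k, 0 < (P k).K) ∧ (∀ k, 0 < p k ∧ p k ≤ 1) ∧ Summable c ∧ (∀ k, 0 ≤ c k) ∧
    Filter.Tendsto ε Filter.atTop (nhds 0) ∧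
    ∀ (V : Type) (G : SimpleGraph V) (_ : G.IsTree) (T : OT G d),
      (∀ k o (B : Finset V), (∀ r ∈ B, Clo G r B) → (∀ w, G.dist o w ≤ ρ k → w ∈ B) →
        nzP V d p P {η | (T.cfg P B η k).1 o ≠ (T.cfg P (bl G o (ρ k)) η k).1 o} ≤
          ENNReal.ofReal ((1 / 2) ^ k)) ∧
      (∀ k v (B : Finset V), (∀ r ∈ B, Clo G r B) → (∀ w, G.dist v w ≤ ρ k → w ∈ B) →
        nzP V d p P {η | (T.cfg P B η (k + 1)).1 v ≠ (T.cfg P B η k).1 v} ≤
          ENNReal.ofReal (c k)) ∧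
      (∀ k (B : Finset V) e, e ∈ T.toPT.EB B →
        nzP V d p P {η | col (T.cfg P B η k).1 e ≠ col (T.cfg P B η k).1 (T.N0 e)} ≤
          ENNReal.ofReal (ε k))

/-- the three estimates, for one ported tree -/
structure Est {V : Type} {G : SimpleGraph V} {d : ℕ} [NeZero d] (T : OT G d) (P : ℕ → Par)
    (p : ℕ → ℝ) (ρ : ℕ → ℕ) (c ε : ℕ → ℝ) : Prop where
  loc : ∀ k o (B : Finset V), (∀ r ∈ B, Clo G r B) → (∀ w, G.dist o w ≤ ρ k → w ∈ B) →
    nzP V d p P {η | (T.cfg P B η k).1 o ≠ (T.cfg P (bl G o (ρ k)) η k).1 o} ≤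
      ENNReal.ofReal ((1 / 2) ^ k)
  stp : ∀ k v (B : Finset V), (∀ r ∈ B, Clo G r B) → (∀ w, G.dist v w ≤ ρ k → w ∈ B) →
    nzP V d p P {η | (T.cfg P B η (k + 1)).1 v ≠ (T.cfg P B η k).1 v} ≤ ENNReal.ofReal (c k)
  con : ∀ k (B : Finset V) e, e ∈ T.toPT.EB B →
    nzP V d p P {η | col (T.cfg P B η k).1 e ≠ col (T.cfg P B η k).1 (T.N0 e)} ≤
      ENNReal.ofReal (ε k)

variable {V : Type} {G : SimpleGraph V} {d : ℕ} [NeZero d]

theorem Xk_of_inj (hG : IsRegTree G d) (P : ℕ → Par) (ρ : ℕ → ℕ) (k : ℕ) (v : V)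
    {h : V → unitInterval} (hh : Injective h) (η : V → Nz d) :
    Xk hG P ρ k v (h, η) = ((OTh hG h hh).cfg P (bl G v (ρ k)) η k).1 v := by
  unfold Xk
  exact dif_pos hh

theorem ae_conv (hG : IsRegTree G d) {P : ℕ → Par} {p : ℕ → ℝ} {ρ : ℕ → ℕ} {c ε : ℕ → ℝ}
    (hc : Summable c) (hc0 : ∀ k, 0 ≤ c k)
    {h : V → unitInterval} (hh : Injective h) (hE : Est (OTh hG h hh) P p ρ c ε) (v : V) :
    ∀ᵐ η ∂(nzP V d p P), ∃ σ, ∀ᶠ k in Filter.atTop, Xk hG P ρ k v (h, η) = σ := by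
  set μ := nzP V d p P with hμ
  have hbound : ∀ k, μ {η | Xk hG P ρ k v (h, η) ≠ Xk hG P ρ (k + 1) v (h, η)} ≤
      ENNReal.ofReal ((1 / 2) ^ k + c k + (1 / 2) ^ (k + 1)) := by
    intro k
    set B := bl G v (max (ρ k) (ρ (k + 1))) with hB
    have hclo := ball_clo hG v (max (ρ k) (ρ (k + 1)))
    have hsub : {η | Xk hG P ρ k v (h, η) ≠ Xk hG P ρ (k + 1) v (h, η)} ⊆
        ({η | ((OTh hG h hh).cfg P B η k).1 v ≠
            ((OTh hG h hh).cfg P (bl G v (ρ k)) η k).1 v} ∪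
          {η | ((OTh hG h hh).cfg P B η (k + 1)).1 v ≠ ((OTh hG h hh).cfg P B η k).1 v}) ∪
          {η | ((OTh hG h hh).cfg P B η (k + 1)).1 v ≠
            ((OTh hG h hh).cfg P (bl G v (ρ (k + 1))) η (k + 1)).1 v} := by
      intro η hη
      by_contra hcon
      simp only [Set.mem_union, Set.mem_ofPred_eq, not_or, not_not] at hcon
      apply hη
      rw [Xk_of_inj hG P ρ k v hh, Xk_of_inj hG P ρ (k + 1) v hh, ← hcon.1.1, ← hcon.1.2,
        hcon.2]
    refine (measure_mono hsub).trans ?_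
    refine (measure_union_le _ _).trans ?_
    rw [ENNReal.ofReal_add (by have := hc0 k; positivity) (by positivity),
      ENNReal.ofReal_add (by positivity) (hc0 k)]
    refine add_le_add ((measure_union_le _ _).trans (add_le_add ?_ ?_)) ?_
    · exact hE.loc k v B hclo fun w hw => (mem_bl hG).mpr (hw.trans (le_max_left _ _))
    · exact hE.stp k v B hclo fun w hw => (mem_bl hG).mpr (hw.trans (le_max_left _ _))
    · exact hE.loc (k + 1) v B hclo fun w hw => (mem_bl hG).mpr (hw.trans (le_max_right _ _))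
  have hsum : Summable fun k : ℕ => (1 / 2 : ℝ) ^ k + c k + (1 / 2) ^ (k + 1) := by
    have h2 : Summable fun k : ℕ => (1 / 2 : ℝ) ^ k := summable_geometric_two
    exact (h2.add hc).add ((summable_nat_add_iff 1).mpr h2)
  have hfin : ∑' k, μ {η | Xk hG P ρ k v (h, η) ≠ Xk hG P ρ (k + 1) v (h, η)} ≠ ⊤ :=
    ne_top_of_le_ne_top hsum.tsum_ofReal_ne_top (ENNReal.tsum_le_tsum hbound)
  filter_upwards [ae_eventually_notMem hfin] with η hη
  rw [Filter.eventually_atTop] at hη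
  obtain ⟨N, hN⟩ := hη
  refine ⟨Xk hG P ρ N v (h, η), ?_⟩
  rw [Filter.eventually_atTop]
  refine ⟨N, fun k hk => ?_⟩
  induction k, hk using Nat.le_induction with
  | base => rfl
  | succ k hk ih =>
    have := hN k hk
    simp only [ne_eq, not_not] at this
    rw [← this, ih]

theorem ae_cons (hG : IsRegTree G d) {P : ℕ → Par} {p : ℕ → ℝ} {ρ : ℕ → ℕ} {c ε : ℕ → ℝ}
    (hc : Summable c) (hc0 : ∀ k, 0 ≤ c k) (hε : Filter.Tendsto ε Filter.atTop (nhds 0))
    {h : V → unitInterval} (hh : Injective h) (hE : Est (OTh hG h hh) P p ρ c ε) (v w : V)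
    (hvw : G.Adj v w) :
    ∀ᵐ η ∂(nzP V d p P), Xlim hG P ρ v (h, η) (prt G d h v w) =
      Xlim hG P ρ w (h, η) (prt G d h w v) := by
  set μ := nzP V d p P with hμ
  set i := prt G d h v w with hi
  set j := prt G d h w v with hj
  have hN0 : (OTh hG h hh).N0 (v, i) = (w, j) := by
    rw [OTh_N0]
    unfold oN0
    simp only
    rw [hi, nbr_prt hG hh hvw]
  have hN0' : (OTh hG h hh).N0 (w, j) = (v, i) := by
    rw [← hN0, (OTh hG h hh).inv]
  have hbound : ∀ k, μ {η | Xk hG P ρ k v (h, η) i ≠ Xk hG P ρ k w (h, η) j} ≤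
      ENNReal.ofReal ((1 / 2) ^ k) + ENNReal.ofReal ((1 / 2) ^ k) + ENNReal.ofReal (ε k) := by
    intro k
    set B := bl G v (ρ k + 1) with hB
    have hclo := ball_clo hG v (ρ k + 1)
    have hvB : v ∈ B := self_mem_bl hG v _
    have hd1 : G.dist v w = 1 := SimpleGraph.dist_eq_one_iff_adj.mpr hvw
    have hwB : w ∈ B := by
      rw [hB, mem_bl hG, hd1]; omega
    set e := (OTh hG h hh).cd (v, i) with he
    have heB : e ∈ (OTh hG h hh).toPT.EB B :=
      (OTh hG h hh).toPT.cd_mem_EB hvB (by rw [hN0]; exact hwB)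
    have hsub : {η | Xk hG P ρ k v (h, η) i ≠ Xk hG P ρ k w (h, η) j} ⊆
        ({η | ((OTh hG h hh).cfg P B η k).1 v ≠
            ((OTh hG h hh).cfg P (bl G v (ρ k)) η k).1 v} ∪
          {η | ((OTh hG h hh).cfg P B η k).1 w ≠
            ((OTh hG h hh).cfg P (bl G w (ρ k)) η k).1 w}) ∪
          {η | col ((OTh hG h hh).cfg P B η k).1 e ≠
            col ((OTh hG h hh).cfg P B η k).1 ((OTh hG h hh).N0 e)} := by
      intro η hη
      by_contra hcon
      simp only [Set.mem_union, Set.mem_ofPred_eq, not_or, not_not] at hcon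
      apply hη
      rw [Xk_of_inj hG P ρ k v hh, Xk_of_inj hG P ρ k w hh, ← hcon.1.1, ← hcon.1.2]
      have h3 := hcon.2
      rcases (OTh hG h hh).cd_cases (v, i) with h4 | h4
      · rw [← he] at h4
        rw [h4, hN0] at h3
        exact h3
      · rw [← he] at h4
        rw [h4, hN0, hN0'] at h3
        exact h3.symm
    refine (measure_mono hsub).trans ?_
    refine (measure_union_le _ _).trans ?_
    refine add_le_add ((measure_union_le _ _).trans (add_le_add ?_ ?_)) ?_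
    · exact hE.loc k v B hclo fun u hu => (mem_bl hG).mpr (by omega)
    · refine hE.loc k w B hclo fun u hu => (mem_bl hG).mpr ?_
      have := hG.1.connected.dist_triangle (u := v) (v := w) (w := u)
      omega
    · exact hE.con k B e heB
  have hlim : Filter.Tendsto (fun k : ℕ => ENNReal.ofReal ((1 / 2) ^ k) +
      ENNReal.ofReal ((1 / 2) ^ k) + ENNReal.ofReal (ε k)) Filter.atTop (nhds 0) := by
    have h2 : Filter.Tendsto (fun k : ℕ => (1 / 2 : ℝ) ^ k) Filter.atTop (nhds 0) :=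
      tendsto_pow_atTop_nhds_zero_of_lt_one (by norm_num) (by norm_num)
    have h3 := ENNReal.tendsto_ofReal h2
    have h4 := ENNReal.tendsto_ofReal hε
    have h5 := (h3.add h3).add h4
    simpa using h5
  have hnull : ∀ n : ℕ, ∀ᵐ η ∂μ, ∃ k, n ≤ k ∧
      Xk hG P ρ k v (h, η) i = Xk hG P ρ k w (h, η) j := by
    intro n
    rw [ae_iff]
    have hle : ∀ k, n ≤ k → μ {η | ¬ ∃ k, n ≤ k ∧
        Xk hG P ρ k v (h, η) i = Xk hG P ρ k w (h, η) j} ≤
        ENNReal.ofReal ((1 / 2) ^ k) + ENNReal.ofReal ((1 / 2) ^ k) +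
          ENNReal.ofReal (ε k) := by
      intro k hk
      refine (measure_mono ?_).trans (hbound k)
      intro η hη heq
      exact hη ⟨k, hk, heq⟩
    refine le_antisymm ?_ (zero_le)
    refine ge_of_tendsto hlim ?_
    rw [Filter.eventually_atTop]
    exact ⟨n, fun k hk => hle k hk⟩
  rw [← ae_all_iff] at hnull
  filter_upwards [hnull, ae_conv hG hc hc0 hh hE v, ae_conv hG hc hc0 hh hE w] with η h1 h2 h3
  obtain ⟨σ, hσ⟩ := h2
  obtain ⟨τ, hτ⟩ := h3
  rw [Xlim_eq hG P ρ v _ hσ, Xlim_eq hG P ρ w _ hτ]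
  obtain ⟨N, hN⟩ := Filter.eventually_atTop.mp (hσ.and hτ)
  obtain ⟨k, hk, hkk⟩ := h1 N
  rw [(hN k hk).1, (hN k hk).2] at hkk
  exact hkk

end FI.Lim
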