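import Pool.Agent.H99.FI.Limit.Limit

/-!
# FI, job M2: the factor map
-/

set_option autoImplicit false

namespace FI.Lim

open Finset Function MeasureTheory
open scoped Classical

section Laws

instance permLaw_prob (d : ℕ) : IsProbabilityMeasure
    (∑ σ : Equiv.Perm (Fin d), (1 / (d.factorial : ENNReal)) • Measure.dirac σ) := by
  constructor
  rw [Measure.finsetSum_apply]
  simp only [Measure.smul_apply, measure_univ, smul_eq_mul, mul_one, Finset.sum_const,
    Finset.card_univ, Fintype.card_perm, Fintype.card_fin, nsmul_eq_mul]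
  rw [one_div]
  apply ENNReal.mul_inv_cancel
  · have := Nat.factorial_ne_zero d
    exact_mod_cast this
  · exact ENNReal.natCast_ne_top _

theorem winLaw_prob {p : ℝ} (hp : 0 ≤ p) (hp1 : p ≤ 1) {K : ℕ} (hK : 0 < K) :
    IsProbabilityMeasure (winLaw p K) := by
  have h1 : IsProbabilityMeasure ((ENNReal.ofReal p) • Measure.dirac true +
      (ENNReal.ofReal (1 - p)) • (Measure.dirac false : Measure Bool)) := by
    constructor
    rw [Measure.add_apply, Measure.smul_apply, Measure.smul_apply, measure_univ, measure_univ,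
      smul_eq_mul, smul_eq_mul, mul_one, mul_one, ← ENNReal.ofReal_add hp (by linarith)]
    simp
  have h2 : IsProbabilityMeasure
      (∑ ξ ∈ range K, (1 / (K : ENNReal)) • (Measure.dirac ξ : Measure ℕ)) := by
    constructor
    rw [Measure.finsetSum_apply]
    simp only [Measure.smul_apply, measure_univ, smul_eq_mul, mul_one, Finset.sum_const,
      Finset.card_range, nsmul_eq_mul]
    rw [one_div]
    apply ENNReal.mul_inv_cancel
    · exact_mod_cast hK.ne'
    · exact ENNReal.natCast_ne_top _
  unfold winLaw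
  infer_instance

theorem nzLaw_prob (d : ℕ) {p : ℕ → ℝ} {P : ℕ → Par} (hp : ∀ k, 0 < p k ∧ p k ≤ 1)
    (hK : ∀ k, 0 < (P k).K) : IsProbabilityMeasure (nzLaw d p P) := by
  have h1 : ∀ k, IsProbabilityMeasure (winLaw (p k) (P k).K) := fun k =>
    winLaw_prob (hp k).1.le (hp k).2 (hK k)
  unfold nzLaw
  infer_instance

/-- the law of a family of pairs -/
theorem map_pair {ι : Type*} {A B : Type*} [MeasurableSpace A] [MeasurableSpace B]
    (μ : Measure A) (ν : Measure B) [IsProbabilityMeasure μ] [IsProbabilityMeasure ν] :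
    (Measure.infinitePi (fun _ : ι => μ.prod ν)).map
      (fun f => ((fun i => (f i).1, fun i => (f i).2) : (ι → A) × (ι → B))) =
    (Measure.infinitePi (fun _ : ι => μ)).prod (Measure.infinitePi (fun _ : ι => ν)) := by
  symm
  have hm : Measurable (fun f : ι → A × B =>
      ((fun i => (f i).1, fun i => (f i).2) : (ι → A) × (ι → B))) := by fun_prop
  refine Measure.prod_eq_generateFrom
    (C := squareCylinders fun _ : ι => {s : Set A | MeasurableSet s})
    (D := squareCylinders fun _ : ι => {s : Set B | MeasurableSet s})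
    generateFrom_squareCylinders generateFrom_squareCylinders
    (isPiSystem_squareCylinders (fun _ => MeasurableSpace.isPiSystem_measurableSet) (by simp))
    (isPiSystem_squareCylinders (fun _ => MeasurableSpace.isPiSystem_measurableSet) (by simp))
    ⟨fun _ => Set.univ, fun _ => ⟨∅, fun _ => Set.univ, by simp, by simp⟩,
      fun _ => measure_lt_top _ _, Set.iUnion_const _⟩
    ⟨fun _ => Set.univ, fun _ => ⟨∅, fun _ => Set.univ, by simp, by simp⟩,
      fun _ => measure_lt_top _ _, Set.iUnion_const _⟩ ?_
  rintro _ ⟨s, S, hS, rfl⟩ _ ⟨t, T, hT, rfl⟩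
  have hS' : ∀ i, MeasurableSet (S i) := fun i => hS i (Set.mem_univ i)
  have hT' : ∀ i, MeasurableSet (T i) := fun i => hT i (Set.mem_univ i)
  have hms : MeasurableSet ((s : Set ι).pi S) :=
    MeasurableSet.pi s.countable_toSet fun i _ => hS' i
  have hmt : MeasurableSet ((t : Set ι).pi T) :=
    MeasurableSet.pi t.countable_toSet fun i _ => hT' i
  rw [Measure.map_apply hm (hms.prod hmt)]
  have hset : (fun f : ι → A × B =>
      ((fun i => (f i).1, fun i => (f i).2) : (ι → A) × (ι → B))) ⁻¹'
      (((s : Set ι).pi S) ×ˢ ((t : Set ι).pi T)) =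
      ((s ∪ t : Finset ι) : Set ι).pi (fun i =>
        (if i ∈ s then S i else Set.univ) ×ˢ (if i ∈ t then T i else Set.univ)) := by
    ext f
    simp only [Set.mem_preimage, Set.mem_prod, Set.mem_pi, Finset.mem_coe, Finset.mem_union]
    constructor
    · rintro ⟨h1, h2⟩ i _
      constructor
      · by_cases hi : i ∈ s
        · rw [if_pos hi]; exact h1 i hi
        · rw [if_neg hi]; trivial
      · by_cases hi : i ∈ t
        · rw [if_pos hi]; exact h2 i hi
        · rw [if_neg hi]; trivial
    · intro h
      constructor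
      · intro i hi
        have := (h i (Or.inl hi)).1
        rwa [if_pos hi] at this
      · intro i hi
        have := (h i (Or.inr hi)).2
        rwa [if_pos hi] at this
  rw [hset, Measure.infinitePi_pi, Measure.infinitePi_pi, Measure.infinitePi_pi]
  · simp only [Measure.prod_prod]
    rw [Finset.prod_mul_distrib]
    congr 1
    · rw [← Finset.prod_subset (Finset.subset_union_left : s ⊆ s ∪ t)]
      · exact Finset.prod_congr rfl fun i hi => by rw [if_pos hi]
      · intro i _ hi
        rw [if_neg hi, measure_univ]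
    · rw [← Finset.prod_subset (Finset.subset_union_right : t ⊆ s ∪ t)]
      · exact Finset.prod_congr rfl fun i hi => by rw [if_pos hi]
      · intro i _ hi
        rw [if_neg hi, measure_univ]
  · exact fun i _ => hT' i
  · exact fun i _ => hS' i
  · intro i _
    refine MeasurableSet.prod ?_ ?_
    · split_ifs
      · exact hS' i
      · exact MeasurableSet.univ
    · split_ifs
      · exact hT' i
      · exact MeasurableSet.univ

/-- labels are almost surely distinct -/
theorem ae_inj {V : Type} [Countable V] : ∀ᵐ h ∂(iidP V), Injective h := by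
  have h1 : ∀ v w : V, v ≠ w → ∀ᵐ h ∂(iidP V), h v ≠ h w := by
    intro v w hvw
    have hlaw : (iidP V).map (fun h => (h v, h w)) =
        (volume : Measure unitInterval).prod (volume : Measure unitInterval) := by
      symm
      refine Measure.prod_eq fun s t hs ht => ?_
      rw [Measure.map_apply (by fun_prop) (hs.prod ht)]
      have hset : (fun h : V → unitInterval => (h v, h w)) ⁻¹' (s ×ˢ t) =
          (({v, w} : Finset V) : Set V).pi (fun u => if u = v then s else t) := by
        ext h
        simp only [Set.mem_preimage, Set.mem_prod, Set.mem_pi, Finset.coe_insert,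
          Finset.coe_singleton, Set.mem_insert_iff, Set.mem_singleton_iff, forall_eq_or_imp,
          forall_eq, if_true, if_neg hvw.symm]
      rw [hset]
      unfold iidP
      rw [Measure.infinitePi_pi, Finset.prod_pair hvw, if_pos rfl, if_neg hvw.symm]
      intro i _
      split_ifs
      · exact hs
      · exact ht
    have hdiag : ∀ᵐ z ∂((volume : Measure unitInterval).prod (volume : Measure unitInterval)),
        z.1 ≠ z.2 := by
      rw [Measure.ae_prod_iff_ae_ae]
      · refine Filter.Eventually.of_forall fun x => ?_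
        rw [ae_iff]
        have : {y : unitInterval | ¬ (x ≠ y)} = {x} := by
          ext y; simp [eq_comm]
        simp only
        rw [this]
        exact measure_singleton x
      · exact (measurableSet_eq_fun measurable_fst measurable_snd).compl
    rw [← hlaw] at hdiag
    have hm : Measurable (fun h : V → unitInterval => (h v, h w)) := by fun_prop
    exact ae_of_ae_map (p := fun z : unitInterval × unitInterval => z.1 ≠ z.2) hm.aemeasurable hdiag
  have h2 : ∀ᵐ h ∂(iidP V), ∀ v w : V, v ≠ w → h v ≠ h w := by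
    rw [ae_all_iff]; intro v
    rw [ae_all_iff]; intro w
    by_cases hvw : v = w
    · exact Filter.Eventually.of_forall fun h h' => absurd hvw h'
    · exact (h1 v w hvw).mono fun h hh _ => hh
  filter_upwards [h2] with h hh
  intro v w hvw
  by_contra hne
  exact hh v w hne hvw

end Laws

section Main

variable {V : Type} {G : SimpleGraph V} {d : ℕ} [NeZero d]

/-- colour of the edge `{v, w}` read at `v` -/
noncomputable def cl (hG : IsRegTree G d) (P : ℕ → Par) (ρ : ℕ → ℕ) (v w : V)
    (z : (V → unitInterval) × (V → Nz d)) : Fin d := Xlim hG P ρ v z (prt G d z.1 v w)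

omit [NeZero d] in
theorem rk_meas (v w : V) : Measurable (fun h : V → unitInterval => rk G h v w) := by
  have : (fun h : V → unitInterval => rk G h v w) =
      fun h => ∑ w' ∈ nbs G v, if h w' < h w then 1 else 0 := by
    funext h
    unfold rk
    rw [Finset.card_filter]
  rw [this]
  refine Finset.measurable_sum _ fun w' _ => ?_
  refine Measurable.ite ?_ measurable_const measurable_const
  exact measurableSet_lt (measurable_pi_apply _) (measurable_pi_apply _)

theorem prt_meas (v w : V) : Measurable (fun h : V → unitInterval => prt G d h v w) := by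
  have : (fun h : V → unitInterval => prt G d h v w) =
      (fun n : ℕ => if H : n < d then (⟨n, H⟩ : Fin d) else 0) ∘ (fun h => rk G h v w) := rfl
  rw [this]
  exact (measurable_from_nat).comp (rk_meas v w)

theorem cl_meas (hG : IsRegTree G d) (P : ℕ → Par) (ρ : ℕ → ℕ) (v w : V) :
    Measurable (cl hG P ρ v w) := by
  have : cl hG P ρ v w = (fun q : Equiv.Perm (Fin d) × Fin d => q.1 q.2) ∘
      (fun z => (Xlim hG P ρ v z, prt G d z.1 v w)) := rfl
  rw [this]
  exact (measurable_of_countable _).comp
    ((Xlim_meas hG P ρ v).prodMk ((prt_meas v w).comp measurable_fst))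

theorem cl_equiv (hG : IsRegTree G d) (P : ℕ → Par) (ρ : ℕ → ℕ) (γ : G ≃g G) {v w : V}
    (hvw : G.Adj v w)
    (z z' : (V → unitInterval) × (V → Nz d)) (h1 : ∀ u, z'.1 (γ.toEquiv u) = z.1 u)
    (h2 : ∀ u, z'.2 (γ.toEquiv u) = z.2 u) :
    cl hG P ρ (γ.toEquiv v) (γ.toEquiv w) z' = cl hG P ρ v w z := by
  unfold cl
  rw [Xlim_equiv hG P ρ γ v z z' h1 h2]
  rw [prt_rel hG γ (B := {v}) (h := z.1) (h' := z'.1) (fun u _ x _ => by rw [h1, h1])
    (Finset.mem_singleton_self v) hvw]

/-- almost surely all edges are consistent -/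
theorem ae_good (hG : IsRegTree G d) {P : ℕ → Par} {p : ℕ → ℝ} {ρ : ℕ → ℕ} {c ε : ℕ → ℝ}
    (hc : Summable c) (hc0 : ∀ k, 0 ≤ c k) (hε : Filter.Tendsto ε Filter.atTop (nhds 0))
    (hE : ∀ T : OT G d, Est T P p ρ c ε) [IsProbabilityMeasure (nzLaw d p P)] :
    ∀ᵐ z ∂((iidP V).prod (nzP V d p P)), Injective z.1 ∧
      ∀ v w, G.Adj v w → cl hG P ρ v w z = cl hG P ρ w v z := by
  have hV : Countable V := countable_V hG
  have hprob : IsProbabilityMeasure (nzP V d p P) := by unfold nzP; infer_instance
  have hmeas : MeasurableSet {z : (V → unitInterval) × (V → Nz d) | Injective z.1 ∧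
      ∀ v w, G.Adj v w → cl hG P ρ v w z = cl hG P ρ w v z} := by
    have : {z : (V → unitInterval) × (V → Nz d) | Injective z.1 ∧
        ∀ v w, G.Adj v w → cl hG P ρ v w z = cl hG P ρ w v z} =
        {z | Injective z.1} ∩
        ⋂ v : V, ⋂ w : V, ⋂ _ : G.Adj v w, {z | cl hG P ρ v w z = cl hG P ρ w v z} := by
      ext z
      simp only [Set.mem_ofPred_eq, Set.mem_iInter, Set.mem_inter_iff]
    rw [this]
    exact meas_inj.inter (MeasurableSet.iInter fun v => MeasurableSet.iInter fun w =>
      MeasurableSet.iInter fun _ =>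
        measurableSet_eq_fun (cl_meas hG P ρ v w) (cl_meas hG P ρ w v))
  rw [Measure.ae_prod_iff_ae_ae hmeas]
  filter_upwards [ae_inj (V := V)] with h hh
  have h1 : ∀ v w, ∀ᵐ η ∂(nzP V d p P), G.Adj v w →
      cl hG P ρ v w (h, η) = cl hG P ρ w v (h, η) := by
    intro v w
    by_cases hvw : G.Adj v w
    · exact (ae_cons hG hc hc0 hε hh (hE _) v w hvw).mono fun η hη _ => hη
    · exact Filter.Eventually.of_forall fun η h' => absurd h' hvw
  have h2 : ∀ᵐ η ∂(nzP V d p P), ∀ v w, G.Adj v w →
      cl hG P ρ v w (h, η) = cl hG P ρ w v (h, η) := by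
    rw [ae_all_iff]; intro v
    rw [ae_all_iff]; intro w
    exact h1 v w
  filter_upwards [h2] with η hη
  exact ⟨hh, hη⟩

theorem M2_of_M1 (hM1 : M1Out d) (hG : IsRegTree G d) :
    ∃ φ, IsFactorMap G d φ ∧ ∀ᵐ ω ∂(iidP V), Proper G d (φ ω) := by
  obtain ⟨P, p, ρ, c, ε, hK, hp, hc, hc0, hε, hM⟩ := hM1
  have hE : ∀ T : OT G d, Est T P p ρ c ε := fun T =>
    ⟨(hM V G hG.1 T).1, (hM V G hG.1 T).2.1, (hM V G hG.1 T).2.2⟩
  have hprob : IsProbabilityMeasure (nzLaw d p P) := nzLaw_prob d hp hK
  obtain ⟨u, hu, hul⟩ := Measure.exists_measurable_map_eq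
    ((volume : Measure unitInterval).prod (nzLaw d p P))
  -- the pair of labels
  set Φ : (V → unitInterval) → (V → unitInterval) × (V → Nz d) :=
    fun ω => (fun v => (u (ω v)).1, fun v => (u (ω v)).2) with hΦ
  have hΦm : Measurable Φ := by
    refine Measurable.prodMk ?_ ?_
    · exact measurable_pi_lambda _ fun v => measurable_fst.comp (hu.comp (measurable_pi_apply v))
    · exact measurable_pi_lambda _ fun v => measurable_snd.comp (hu.comp (measurable_pi_apply v))
  have hlaw : (iidP V).map Φ = (iidP V).prod (nzP V d p P) := by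
    have h1 : (iidP V).map (fun ω v => u (ω v)) =
        Measure.infinitePi (fun _ : V => (volume : Measure unitInterval).prod (nzLaw d p P)) := by
      unfold iidP
      rw [Measure.infinitePi_map_pi (fun _ : V => (volume : Measure unitInterval))
        (fun _ : V => hu), hul]
    have h2 := map_pair (ι := V) (volume : Measure unitInterval) (nzLaw d p P)
    have m1 : Measurable (fun f : V → unitInterval × Nz d =>
        ((fun i => (f i).1, fun i => (f i).2) : (V → unitInterval) × (V → Nz d))) := by fun_prop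
    have m2 : Measurable (fun (ω : V → unitInterval) (v : V) => u (ω v)) :=
      measurable_pi_lambda _ fun v => hu.comp (measurable_pi_apply v)
    rw [← h1, Measure.map_map m1 m2] at h2
    exact h2
  have hgood : ∀ᵐ ω ∂(iidP V), Injective (Φ ω).1 ∧
      ∀ v w, G.Adj v w → cl hG P ρ v w (Φ ω) = cl hG P ρ w v (Φ ω) := by
    have := ae_good hG hc hc0 hε hE
    rw [← hlaw] at this
    exact ae_of_ae_map hΦm.aemeasurable this
  -- representatives of the edges
  have hrep : ∀ e : G.edgeSet, ∃ q : V × V, s(q.1, q.2) = (e : Sym2 V) := by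
    rintro ⟨e, he⟩
    induction e using Sym2.ind with
    | _ a b => exact ⟨(a, b), rfl⟩
  choose q hq using hrep
  have hadj : ∀ e : G.edgeSet, G.Adj (q e).1 (q e).2 := by
    intro e
    have h1 : s((q e).1, (q e).2) ∈ G.edgeSet := by rw [hq e]; exact e.2
    exact h1
  -- symmetric description of the colour
  have hcol : ∀ ω, (∀ v w, G.Adj v w → cl hG P ρ v w (Φ ω) = cl hG P ρ w v (Φ ω)) →
      ∀ (e : G.edgeSet) (v w : V), s(v, w) = (e : Sym2 V) →
      cl hG P ρ (q e).1 (q e).2 (Φ ω) = cl hG P ρ v w (Φ ω) := by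
    intro ω hω e v w hvw
    have h1 : s((q e).1, (q e).2) = s(v, w) := by rw [hq e, hvw]
    rw [Sym2.eq_iff] at h1
    rcases h1 with ⟨h1, h2⟩ | ⟨h1, h2⟩
    · rw [h1, h2]
    · rw [hω _ _ (hadj e), h1, h2]
  refine ⟨fun ω e => cl hG P ρ (q e).1 (q e).2 (Φ ω), ⟨?_, ?_⟩, ?_⟩
  · exact measurable_pi_lambda _ fun e => (cl_meas hG P ρ _ _).comp hΦm
  · intro γ
    filter_upwards [hgood] with ω hω
    funext e
    simp only [actE]
    -- the representative of the preimage edge
    have e1 : ∀ v, γ.toEquiv (γ.toEquiv.symm v) = v := fun v => γ.toEquiv.apply_symm_apply v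
    have hadj' : G.Adj (γ.toEquiv.symm (q e).1) (γ.toEquiv.symm (q e).2) := by
      rw [← adj_iso γ, e1, e1]; exact hadj e
    have h2 : ∀ v, (Φ (actV G γ ω)).1 (γ.toEquiv v) = (Φ ω).1 v := by
      intro v
      simp only [hΦ, actV]
      congr 3
      exact γ.toEquiv.symm_apply_apply v
    have h3 : ∀ v, (Φ (actV G γ ω)).2 (γ.toEquiv v) = (Φ ω).2 v := by
      intro v
      simp only [hΦ, actV]
      congr 3
      exact γ.toEquiv.symm_apply_apply v
    have h4 := cl_equiv hG P ρ γ hadj' (Φ ω) (Φ (actV G γ ω)) h2 h3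
    rw [e1, e1] at h4
    rw [h4]
    symm
    apply hcol ω hω.2
    have h5 : ((γ.symm.mapEdgeSet e : G.edgeSet) : Sym2 V) =
        Sym2.map γ.toEquiv.symm (e : Sym2 V) := rfl
    rw [h5, ← hq e]
    rfl
  · filter_upwards [hgood] with ω hω
    intro e e' hne ⟨v, hv, hv'⟩
    obtain ⟨w, hw⟩ := hv
    obtain ⟨w', hw'⟩ := hv'
    have h1 := hcol ω hω.2 e v w hw.symm
    have h2 := hcol ω hω.2 e' v w' hw'.symm
    simp only
    rw [h1, h2]
    have a1 : G.Adj v w := by
      have : s(v, w) ∈ G.edgeSet := by rw [← hw]; exact e.2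
      exact this
    have a2 : G.Adj v w' := by
      have : s(v, w') ∈ G.edgeSet := by rw [← hw']; exact e'.2
      exact this
    intro heq
    unfold cl at heq
    have h3 := (Xlim hG P ρ v (Φ ω)).injective heq
    have h4 := prt_inj hG hω.1 a1 a2 h3
    apply hne
    apply Subtype.ext
    rw [hw, hw', h4]

/-- output of job M2, from the output of job M1 -/
theorem M2_out_of (hM1 : ∀ d : ℕ, ∀ [NeZero d], 3 ≤ d → M1Out d) {d : ℕ} (hd : 3 ≤ d)
    {V : Type} (G : SimpleGraph V) (hG : IsRegTree G d) :
    ∃ φ, IsFactorMap G d φ ∧ ∀ᵐ ω ∂(iidP V), Proper G d (φ ω) := by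
  have : NeZero d := ⟨by omega⟩
  exact M2_of_M1 (hM1 d hd) hG

end Main

end FI.Lim
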