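import Pool.Agent.H99.FI.Limit.Order

/-!
# FI, job M2: balls, equivariance and measurability of the finite-volume configurations
-/

set_option autoImplicit false

namespace FI.Lim

open Finset Function MeasureTheory
open scoped Classical

section Balls

variable {V : Type} {G : SimpleGraph V} {d : ℕ}

theorem ball_finite (hG : IsRegTree G d) (o : V) (r : ℕ) : {v | G.dist o v ≤ r}.Finite := by
  induction r with
  | zero =>
    refine (Set.finite_singleton o).subset ?_
    intro v hv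
    have h1 : G.dist o v = 0 := Nat.le_zero.mp hv
    rw [hG.1.connected.dist_eq_zero_iff] at h1
    exact h1.symm
  | succ r ih =>
    have h2 : ({o} ∪ ⋃ v ∈ {v | G.dist o v ≤ r}, G.neighborSet v).Finite :=
      (Set.finite_singleton o).union (ih.biUnion fun v _ => (hG.2 v).1)
    refine h2.subset ?_
    intro w hw
    by_cases hwo : w = o
    · exact Or.inl hwo
    · right
      obtain ⟨u, hu, hd⟩ := exists_closer hG.1 o hwo
      rw [Set.mem_iUnion₂]
      refine ⟨u, ?_, hu.symm⟩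
      have : G.dist o w ≤ r + 1 := hw
      show G.dist o u ≤ r
      omega

theorem mem_bl (hG : IsRegTree G d) {o v : V} {r : ℕ} : v ∈ bl G o r ↔ G.dist o v ≤ r := by
  unfold bl
  rw [dif_pos (ball_finite hG o r)]
  simp

theorem out_dist (hG : IsRegTree G d) (o r : V) (m : ℕ) : ∀ v w : V, G.Adj v w →
    G.dist r v = G.dist r w + 1 → G.dist r w = m → G.dist o w = G.dist o v + 1 →
    G.dist o r = G.dist o w + m := by
  induction m with
  | zero =>
    intro v w _ _ h0 _
    rw [hG.1.connected.dist_eq_zero_iff] at h0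
    rw [h0]; rfl
  | succ m ih =>
    intro v w hvw hd hm ho
    have hwr : w ≠ r := by
      rintro rfl
      simp at hm
    obtain ⟨w1, hw1, hd1⟩ := exists_closer hG.1 r hwr
    have hm1 : G.dist r w1 = m := by omega
    have ho1 : G.dist o w1 = G.dist o w + 1 := by
      rcases dist_adj hG.1 o hw1 with h | h
      · exfalso
        have h2 : w1 = v := closer_unique hG.1 o hw1 hvw.symm h ho
        rw [h2] at hm1
        omega
      · exact h
    have := ih w w1 hw1 hd1 hm1 ho1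
    omega

theorem ball_clo (hG : IsRegTree G d) (o : V) (n : ℕ) : ∀ r ∈ bl G o n, Clo G r (bl G o n) := by
  intro r hr
  refine ⟨hr, ?_⟩
  intro v hv w hvw hd
  rw [mem_bl hG] at hr hv ⊢
  rcases dist_adj hG.1 o hvw with h | h
  · omega
  · have := out_dist hG o r (G.dist r w) v w hvw hd rfl h
    omega

theorem countable_V (hG : IsRegTree G d) : Countable V := by
  obtain ⟨o⟩ := hG.1.connected.nonempty
  rw [← Set.countable_univ_iff]
  have : (Set.univ : Set V) = ⋃ n : ℕ, {v | G.dist o v ≤ n} := by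
    ext v
    simp only [Set.mem_univ, Set.mem_iUnion, true_iff]
    exact ⟨G.dist o v, (show G.dist o v ≤ G.dist o v from le_refl _)⟩
  rw [this]
  exact Set.countable_iUnion fun n => (ball_finite hG o n).countable

theorem dist_iso_le (hG : IsRegTree G d) (γ : G ≃g G) (v w : V) :
    G.dist (γ.toEquiv v) (γ.toEquiv w) ≤ G.dist v w := by
  obtain ⟨p, hp⟩ := hG.1.connected.exists_walk_length_eq_dist v w
  have h1 := SimpleGraph.dist_le (p.map γ.toHom)
  rw [SimpleGraph.Walk.length_map, hp] at h1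
  exact h1

theorem dist_iso (hG : IsRegTree G d) (γ : G ≃g G) (v w : V) :
    G.dist (γ.toEquiv v) (γ.toEquiv w) = G.dist v w := by
  apply le_antisymm (dist_iso_le hG γ v w)
  have h1 := dist_iso_le hG γ.symm (γ.toEquiv v) (γ.toEquiv w)
  have e1 : ∀ u : V, γ.symm.toEquiv (γ.toEquiv u) = u := fun u => γ.toEquiv.symm_apply_apply u
  rwa [e1, e1] at h1

theorem mem_bl_iso (hG : IsRegTree G d) (γ : G ≃g G) (o : V) (r : ℕ) (v : V) :
    γ.toEquiv v ∈ bl G (γ.toEquiv o) r ↔ v ∈ bl G o r := by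
  rw [mem_bl hG, mem_bl hG, dist_iso hG]

end Balls

section XK

variable {V : Type} {G : SimpleGraph V} {d : ℕ} [NeZero d]

/-- the state at `v` after `k` windows, computed in the ball of radius `ρ k` -/
noncomputable def Xk (hG : IsRegTree G d) (P : ℕ → Par) (ρ : ℕ → ℕ) (k : ℕ) (v : V)
    (z : (V → unitInterval) × (V → Nz d)) : Equiv.Perm (Fin d) :=
  if hh : Injective z.1 then ((OTh hG z.1 hh).cfg P (bl G v (ρ k)) z.2 k).1 v else 1

omit [NeZero d] in
theorem self_mem_bl (hG : IsRegTree G d) (v : V) (r : ℕ) : v ∈ bl G v r := by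
  rw [mem_bl hG]; simp

/-- naturality -/
theorem Xk_equiv (hG : IsRegTree G d) (P : ℕ → Par) (ρ : ℕ → ℕ) (k : ℕ) (γ : G ≃g G) (v : V)
    (z z' : (V → unitInterval) × (V → Nz d)) (h1 : ∀ u, z'.1 (γ.toEquiv u) = z.1 u)
    (h2 : ∀ u, z'.2 (γ.toEquiv u) = z.2 u) :
    Xk hG P ρ k (γ.toEquiv v) z' = Xk hG P ρ k v z := by
  have hinj : Injective z'.1 ↔ Injective z.1 := by
    have e : z'.1 ∘ γ.toEquiv = z.1 := funext h1
    rw [← e]
    exact (γ.toEquiv.injective_comp z'.1).symm
  unfold Xk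
  by_cases hh : Injective z.1
  · rw [dif_pos hh, dif_pos (hinj.mpr hh)]
    have hT := trel hG γ (B := bl G v (ρ k)) (B' := bl G (γ.toEquiv v) (ρ k)) hh (hinj.mpr hh)
      (mem_bl_iso hG γ v (ρ k)) (fun u _ w _ => by rw [h1, h1])
    exact (cfg_rel hT P k (fun u _ => by rw [h2]) (fun u _ j _ => by rw [h2])).st v
      (self_mem_bl hG v (ρ k))
  · rw [dif_neg hh, dif_neg (fun h => hh (hinj.mp h))]

/-- locality -/
theorem Xk_local (hG : IsRegTree G d) (P : ℕ → Par) (ρ : ℕ → ℕ) (k : ℕ) (v : V)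
    (z z' : (V → unitInterval) × (V → Nz d)) (hz : Injective z.1) (hz' : Injective z'.1)
    (h0 : ∀ u ∈ N1 G (N1 G (bl G v (ρ k))), ∀ w ∈ N1 G (N1 G (bl G v (ρ k))),
      (z'.1 u < z'.1 w ↔ z.1 u < z.1 w))
    (h1 : ∀ u ∈ bl G v (ρ k), (z'.2 u).1 = (z.2 u).1)
    (h2 : ∀ u ∈ bl G v (ρ k), ∀ j < k, (z'.2 u).2 j = (z.2 u).2 j) :
    Xk hG P ρ k v z' = Xk hG P ρ k v z := by
  unfold Xk
  rw [dif_pos hz, dif_pos hz']
  have hT := trel hG (SimpleGraph.Iso.refl (G := G)) (B := bl G v (ρ k)) (B' := bl G v (ρ k))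
    hz hz' (fun u => Iff.rfl) (fun u hu w hw => h0 u hu w hw)
  exact (cfg_rel hT P k (fun u hu => h1 u hu) (fun u hu j hj => h2 u hu j hj)).st v
      (self_mem_bl hG v (ρ k))

/-- functions which factor through a countable discrete pattern are measurable -/
theorem meas_factor {Ω Q A : Type*} [MeasurableSpace Ω] [MeasurableSpace Q] [Countable Q]
    [MeasurableSingletonClass Q] [MeasurableSpace A] (I : Set Ω) (hI : MeasurableSet I)
    (pat : Ω → Q) (hp : Measurable pat) (X : Ω → A) (c : A)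
    (hX : ∀ ω ∈ I, ∀ ω' ∈ I, pat ω = pat ω' → X ω = X ω') (hc : ∀ ω, ω ∉ I → X ω = c) :
    Measurable X := by
  intro s _
  have h1 : X ⁻¹' s = (I ∩ pat ⁻¹' (pat '' (I ∩ X ⁻¹' s))) ∪ (Iᶜ ∩ {_ω : Ω | c ∈ s}) := by
    ext ω
    simp only [Set.mem_preimage, Set.mem_union, Set.mem_inter_iff, Set.mem_image,
      Set.mem_compl_iff, Set.mem_ofPred_eq]
    constructor
    · intro h
      by_cases hω : ω ∈ I
      · exact Or.inl ⟨hω, ω, ⟨hω, h⟩, rfl⟩
      · exact Or.inr ⟨hω, by rw [← hc ω hω]; exact h⟩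
    · rintro (⟨hω, ω', ⟨hω', h⟩, he⟩ | ⟨hω, h⟩)
      · rw [hX ω hω ω' hω' he.symm]; exact h
      · rw [hc ω hω]; exact h
  rw [h1]
  exact (hI.inter (hp (Set.to_countable _).measurableSet)).union
    (hI.compl.inter (MeasurableSet.const _))

theorem meas_inj [Countable V] {B : Type*} [MeasurableSpace B] :
    MeasurableSet {z : (V → unitInterval) × B | Injective z.1} := by
  have : {z : (V → unitInterval) × B | Injective z.1} =
      ⋂ v : V, ⋂ w : V, {z | z.1 v = z.1 w → v = w} := by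
    ext z
    simp only [Set.mem_ofPred_eq, Set.mem_iInter]
    exact ⟨fun h v w => @h v w, fun h v w => h v w⟩
  rw [this]
  refine MeasurableSet.iInter fun v => MeasurableSet.iInter fun w => ?_
  by_cases hvw : v = w
  · have : {z : (V → unitInterval) × B | z.1 v = z.1 w → v = w} = Set.univ := by
      ext z; simp [hvw]
    rw [this]; exact MeasurableSet.univ
  · have : {z : (V → unitInterval) × B | z.1 v = z.1 w → v = w} =
        {z | z.1 v = z.1 w}ᶜ := by
      ext z; simp [hvw]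
    rw [this]
    exact (measurableSet_eq_fun ((measurable_pi_apply v).comp measurable_fst)
      ((measurable_pi_apply w).comp measurable_fst)).compl

/-- the pattern type -/
abbrev PatT (V : Type) (d : ℕ) (B S : Finset V) (k : ℕ) : Type :=
  (S × S → Bool) × ((B → Equiv.Perm (Fin d)) × (B → Fin k → Fin d → Bool × ℕ))

/-- the pattern -/
noncomputable def pat (B S : Finset V) (k : ℕ) (z : (V → unitInterval) × (V → Nz d)) :
    PatT V d B S k :=
  (fun p => decide (z.1 p.1 < z.1 p.2), fun w => (z.2 w).1, fun w j i => (z.2 w).2 j i)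

omit [NeZero d] in
theorem pat_meas (B S : Finset V) (k : ℕ) : Measurable (pat (d := d) B S k) := by
  unfold pat
  refine Measurable.prodMk ?_ (Measurable.prodMk ?_ ?_)
  · refine measurable_pi_lambda _ fun p => ?_
    apply measurable_to_bool
    have : (fun z : (V → unitInterval) × (V → Nz d) => decide (z.1 p.1 < z.1 p.2)) ⁻¹' {true} =
        {z | z.1 p.1 < z.1 p.2} := by
      ext z; simp
    rw [this]
    exact measurableSet_lt ((measurable_pi_apply _).comp measurable_fst)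
      ((measurable_pi_apply _).comp measurable_fst)
  · refine measurable_pi_lambda _ fun w => ?_
    exact measurable_fst.comp ((measurable_pi_apply (w : V)).comp measurable_snd)
  · refine measurable_pi_lambda _ fun w => measurable_pi_lambda _ fun j =>
      measurable_pi_lambda _ fun i => ?_
    exact (measurable_pi_apply i).comp ((measurable_pi_apply (j : ℕ)).comp
      (measurable_snd.comp ((measurable_pi_apply (w : V)).comp measurable_snd)))

theorem Xk_meas (hG : IsRegTree G d) (P : ℕ → Par) (ρ : ℕ → ℕ) (k : ℕ) (v : V) :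
    Measurable (Xk hG P ρ k v) := by
  have : Countable V := countable_V hG
  refine meas_factor {z | Injective z.1} meas_inj
    (pat (d := d) (bl G v (ρ k)) (N1 G (N1 G (bl G v (ρ k)))) k) (pat_meas _ _ _) _ 1 ?_ ?_
  · intro z hz z' hz' he
    symm
    unfold pat at he
    rw [Prod.mk.injEq, Prod.mk.injEq] at he
    obtain ⟨e0, e1, e2⟩ := he
    refine Xk_local hG P ρ k v z z' hz hz' ?_ ?_ ?_
    · intro u hu w hw
      have := congrFun e0 (⟨u, hu⟩, ⟨w, hw⟩)
      simp only [decide_eq_decide] at this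
      exact this.symm
    · intro u hu
      exact (congrFun e1 ⟨u, hu⟩).symm
    · intro u hu j hj
      exact (congrFun (congrFun e2 ⟨u, hu⟩) ⟨j, hj⟩).symm
  · intro z hz
    unfold Xk
    exact dif_neg hz

/-- eventual value -/
noncomputable def Xlim (hG : IsRegTree G d) (P : ℕ → Par) (ρ : ℕ → ℕ) (v : V)
    (z : (V → unitInterval) × (V → Nz d)) : Equiv.Perm (Fin d) :=
  if H : ∃ σ, ∀ᶠ k in Filter.atTop, Xk hG P ρ k v z = σ then H.choose else 1

theorem Xlim_eq (hG : IsRegTree G d) (P : ℕ → Par) (ρ : ℕ → ℕ) (v : V)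
    (z : (V → unitInterval) × (V → Nz d)) {σ : Equiv.Perm (Fin d)}
    (h : ∀ᶠ k in Filter.atTop, Xk hG P ρ k v z = σ) : Xlim hG P ρ v z = σ := by
  have H : ∃ σ, ∀ᶠ k in Filter.atTop, Xk hG P ρ k v z = σ := ⟨σ, h⟩
  unfold Xlim
  rw [dif_pos H]
  obtain ⟨k, hk1, hk2⟩ := (H.choose_spec.and h).exists
  rw [← hk1, hk2]

theorem Xlim_equiv (hG : IsRegTree G d) (P : ℕ → Par) (ρ : ℕ → ℕ) (γ : G ≃g G) (v : V)
    (z z' : (V → unitInterval) × (V → Nz d)) (h1 : ∀ u, z'.1 (γ.toEquiv u) = z.1 u)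
    (h2 : ∀ u, z'.2 (γ.toEquiv u) = z.2 u) :
    Xlim hG P ρ (γ.toEquiv v) z' = Xlim hG P ρ v z := by
  by_cases H : ∃ σ, ∀ᶠ k in Filter.atTop, Xk hG P ρ k v z = σ
  · obtain ⟨σ, hσ⟩ := H
    rw [Xlim_eq hG P ρ v z hσ]
    apply Xlim_eq
    refine hσ.mono fun k hk => ?_
    rw [Xk_equiv hG P ρ k γ v z z' h1 h2, hk]
  · have H' : ¬ ∃ σ, ∀ᶠ k in Filter.atTop, Xk hG P ρ k (γ.toEquiv v) z' = σ := by
      rintro ⟨σ, hσ⟩
      exact H ⟨σ, hσ.mono fun k hk => by rw [← hk, Xk_equiv hG P ρ k γ v z z' h1 h2]⟩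
    unfold Xlim
    rw [dif_neg H, dif_neg H']

theorem ev_meas (hG : IsRegTree G d) (P : ℕ → Par) (ρ : ℕ → ℕ) (v : V)
    (σ : Equiv.Perm (Fin d)) :
    MeasurableSet {z | ∀ᶠ k in Filter.atTop, Xk hG P ρ k v z = σ} := by
  have : {z | ∀ᶠ k in Filter.atTop, Xk hG P ρ k v z = σ} =
      ⋃ n : ℕ, ⋂ k : ℕ, ⋂ _ : n ≤ k, (Xk hG P ρ k v) ⁻¹' {σ} := by
    ext z
    simp only [Filter.eventually_atTop, Set.mem_ofPred_eq, Set.mem_iUnion, Set.mem_iInter,
      Set.mem_preimage, Set.mem_singleton_iff]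
  rw [this]
  exact MeasurableSet.iUnion fun n => MeasurableSet.iInter fun k => MeasurableSet.iInter fun _ =>
    Xk_meas hG P ρ k v (Set.to_countable _).measurableSet

theorem Xlim_meas (hG : IsRegTree G d) (P : ℕ → Par) (ρ : ℕ → ℕ) (v : V) :
    Measurable (Xlim hG P ρ v) := by
  apply measurable_to_countable'
  intro σ
  have hE : MeasurableSet (⋃ τ : Equiv.Perm (Fin d),
      {z | ∀ᶠ k in Filter.atTop, Xk hG P ρ k v z = τ}) :=
    MeasurableSet.iUnion fun τ => ev_meas hG P ρ v τ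
  have : (Xlim hG P ρ v) ⁻¹' {σ} = {z | ∀ᶠ k in Filter.atTop, Xk hG P ρ k v z = σ} ∪
      ((⋃ τ : Equiv.Perm (Fin d), {z | ∀ᶠ k in Filter.atTop, Xk hG P ρ k v z = τ})ᶜ ∩
        {_z | σ = 1}) := by
    ext z
    simp only [Set.mem_preimage, Set.mem_singleton_iff, Set.mem_union, Set.mem_ofPred_eq,
      Set.mem_inter_iff, Set.mem_compl_iff, Set.mem_iUnion]
    by_cases H : ∃ σ, ∀ᶠ k in Filter.atTop, Xk hG P ρ k v z = σ
    · obtain ⟨τ, hτ⟩ := H
      rw [Xlim_eq hG P ρ v z hτ]
      constructor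
      · rintro rfl; exact Or.inl hτ
      · rintro (h | h)
        · obtain ⟨k, hk1, hk2⟩ := (hτ.and h).exists
          rw [← hk1, hk2]
        · exact absurd ⟨τ, hτ⟩ h.1
    · have e : Xlim hG P ρ v z = 1 := by unfold Xlim; rw [dif_neg H]
      rw [e]
      constructor
      · intro h; exact Or.inr ⟨H, h.symm⟩
      · rintro (h | h)
        · exact absurd ⟨σ, h⟩ H
        · exact h.2.symm
  rw [this]
  exact (ev_meas hG P ρ v σ).union (hE.compl.inter (MeasurableSet.const _))

end XK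

end FI.Lim
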