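import Pool.Agent.H99.FI.Limit.Transport
import Pool.Agent.H99.FI.Final.Defs

/-!
# FI, job M2: the ported tree of an injective labelling
-/

set_option autoImplicit false

namespace FI.Lim

open Finset Function
open scoped Classical

section Srt

variable {α β : Type*} [LinearOrder β]

/-- the elements of `s` sorted by `key` -/
noncomputable def srt (key : α → β) (s : Finset α) : List α :=
  s.toList.mergeSort (fun a b => decide (key a ≤ key b))

theorem srt_perm (key : α → β) (s : Finset α) : (srt key s).Perm s.toList :=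
  List.mergeSort_perm _ _

theorem srt_nodup (key : α → β) (s : Finset α) : (srt key s).Nodup :=
  (srt_perm key s).nodup_iff.mpr s.nodup_toList

theorem mem_srt (key : α → β) (s : Finset α) (a : α) : a ∈ srt key s ↔ a ∈ s := by
  rw [(srt_perm key s).mem_iff, Finset.mem_toList]

theorem srt_pairwise (key : α → β) (s : Finset α) :
    (srt key s).Pairwise (fun a b => key a ≤ key b) := by
  have h := List.pairwise_mergeSort (le := fun a b => decide (key a ≤ key b))
    (fun a b c h1 h2 => by
      simp only [decide_eq_true_eq] at h1 h2 ⊢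
      exact h1.trans h2)
    (fun a b => by
      simp only [Bool.or_eq_true, decide_eq_true_eq]
      exact le_total _ _) s.toList
  refine h.imp ?_
  intro a b hab
  simpa using hab

theorem srt_unique {key : α → β} (hk : Injective key) {s : Finset α} {l : List α}
    (h1 : l.Nodup) (h2 : ∀ a, a ∈ l ↔ a ∈ s) (h3 : l.Pairwise (fun a b => key a ≤ key b)) :
    l = srt key s := by
  refine List.Perm.eq_of_pairwise (le := fun a b => key a ≤ key b)
    (fun a b _ _ hab hba => hk (le_antisymm hab hba)) h3 (srt_pairwise key s) ?_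
  rw [List.perm_ext_iff_of_nodup h1 (srt_nodup key s)]
  intro a
  rw [h2, mem_srt]

end Srt

section Order

variable {V : Type} {G : SimpleGraph V} {d : ℕ}

/-- the neighbours of a vertex -/
noncomputable def nbs (G : SimpleGraph V) (v : V) : Finset V :=
  if h : (G.neighborSet v).Finite then h.toFinset else ∅

theorem mem_nbs (hG : IsRegTree G d) {v w : V} : w ∈ nbs G v ↔ G.Adj v w := by
  unfold nbs
  rw [dif_pos (hG.2 v).1]
  simp

theorem card_nbs (hG : IsRegTree G d) (v : V) : (nbs G v).card = d := by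
  unfold nbs
  rw [dif_pos (hG.2 v).1, ← Set.ncard_eq_toFinset_card _ (hG.2 v).1]
  exact (hG.2 v).2

/-- rank of `w` among the neighbours of `v` -/
noncomputable def rk (G : SimpleGraph V) (h : V → unitInterval) (v w : V) : ℕ :=
  ((nbs G v).filter (fun w' => h w' < h w)).card

theorem rk_lt (hG : IsRegTree G d) (h : V → unitInterval) {v w : V} (hw : G.Adj v w) :
    rk G h v w < d := by
  rw [← card_nbs hG v]
  apply Finset.card_lt_card
  rw [Finset.ssubset_iff_of_subset (Finset.filter_subset _ _)]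
  exact ⟨w, (mem_nbs hG).mpr hw, by simp⟩

theorem rk_lt_rk (hG : IsRegTree G d) (h : V → unitInterval) {v w w' : V} (hw : G.Adj v w)
    (hlt : h w < h w') : rk G h v w < rk G h v w' := by
  apply Finset.card_lt_card
  rw [Finset.ssubset_iff_of_subset]
  · exact ⟨w, by simp [mem_nbs hG, hw, hlt], by simp⟩
  · intro u hu
    simp only [Finset.mem_filter] at hu ⊢
    exact ⟨hu.1, hu.2.trans hlt⟩

theorem rk_inj (hG : IsRegTree G d) {h : V → unitInterval} (hh : Injective h) {v w w' : V}
    (hw : G.Adj v w) (hw' : G.Adj v w') (he : rk G h v w = rk G h v w') : w = w' := by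
  by_contra hne
  rcases lt_or_gt_of_ne (fun h' => hne (hh h')) with hlt | hlt
  · have := rk_lt_rk hG h hw hlt
    omega
  · have := rk_lt_rk hG h hw' hlt
    omega

theorem rk_surj (hG : IsRegTree G d) {h : V → unitInterval} (hh : Injective h) (v : V)
    (i : Fin d) : ∃ w, G.Adj v w ∧ rk G h v w = i := by
  have himg : (nbs G v).image (rk G h v) = Finset.range d := by
    apply Finset.eq_of_subset_of_card_le
    · intro n hn
      rw [Finset.mem_image] at hn
      obtain ⟨w, hw, rfl⟩ := hn
      rw [Finset.mem_range]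
      exact rk_lt hG h ((mem_nbs hG).mp hw)
    · rw [Finset.card_image_of_injOn, card_nbs hG, Finset.card_range]
      intro w hw w' hw' he
      exact rk_inj hG hh ((mem_nbs hG).mp hw) ((mem_nbs hG).mp hw') he
  have : (i : ℕ) ∈ (nbs G v).image (rk G h v) := by
    rw [himg, Finset.mem_range]; exact i.2
  rw [Finset.mem_image] at this
  obtain ⟨w, hw, hi⟩ := this
  exact ⟨w, (mem_nbs hG).mp hw, hi⟩

/-- the neighbour at port `i` -/
noncomputable def nbr (G : SimpleGraph V) (h : V → unitInterval) (v : V) (i : Fin d) : V :=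
  if H : ∃ w, G.Adj v w ∧ rk G h v w = i then H.choose else v

theorem nbr_adj (hG : IsRegTree G d) {h : V → unitInterval} (hh : Injective h) (v : V)
    (i : Fin d) : G.Adj v (nbr G h v i) := by
  unfold nbr
  rw [dif_pos (rk_surj hG hh v i)]
  exact (rk_surj hG hh v i).choose_spec.1

theorem rk_nbr (hG : IsRegTree G d) {h : V → unitInterval} (hh : Injective h) (v : V)
    (i : Fin d) : rk G h v (nbr G h v i) = i := by
  unfold nbr
  rw [dif_pos (rk_surj hG hh v i)]
  exact (rk_surj hG hh v i).choose_spec.2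

/-- the port of `v` leading to `w` -/
noncomputable def prt (G : SimpleGraph V) (d : ℕ) [NeZero d] (h : V → unitInterval) (v w : V) :
    Fin d := if H : rk G h v w < d then ⟨rk G h v w, H⟩ else 0

theorem prt_val [NeZero d] (hG : IsRegTree G d) (h : V → unitInterval) {v w : V}
    (hw : G.Adj v w) : (prt G d h v w : ℕ) = rk G h v w := by
  unfold prt
  rw [dif_pos (rk_lt hG h hw)]

theorem prt_nbr [NeZero d] (hG : IsRegTree G d) {h : V → unitInterval} (hh : Injective h) (v : V)
    (i : Fin d) : prt G d h v (nbr G h v i) = i := by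
  apply Fin.ext
  rw [prt_val hG h (nbr_adj hG hh v i), rk_nbr hG hh]

theorem nbr_prt [NeZero d] (hG : IsRegTree G d) {h : V → unitInterval} (hh : Injective h)
    {v w : V} (hw : G.Adj v w) : nbr G h v (prt G d h v w) = w :=
  rk_inj hG hh (nbr_adj hG hh v _) hw (by rw [rk_nbr hG hh, prt_val hG h hw])

theorem prt_inj [NeZero d] (hG : IsRegTree G d) {h : V → unitInterval} (hh : Injective h)
    {v w w' : V} (hw : G.Adj v w) (hw' : G.Adj v w') (he : prt G d h v w = prt G d h v w') :
    w = w' := by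
  rw [← nbr_prt hG hh hw, he, nbr_prt hG hh hw']

/-- partner of a dart -/
noncomputable def oN0 (G : SimpleGraph V) [NeZero d] (h : V → unitInterval) (a : Dart V d) :
    Dart V d :=
  (nbr G h a.1 a.2, prt G d h (nbr G h a.1 a.2) a.1)

theorem oN0_inv [NeZero d] (hG : IsRegTree G d) {h : V → unitInterval} (hh : Injective h)
    (a : Dart V d) : oN0 G h (oN0 G h a) = a := by
  have hadj := nbr_adj hG hh a.1 a.2
  have h1 : nbr G h (nbr G h a.1 a.2) (prt G d h (nbr G h a.1 a.2) a.1) = a.1 :=
    nbr_prt hG hh hadj.symm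
  unfold oN0
  simp only [h1]
  rw [prt_nbr hG hh]

/-- canonical dart -/
noncomputable def ocd (G : SimpleGraph V) [NeZero d] (h : V → unitInterval) (a : Dart V d) :
    Dart V d :=
  if h a.1 < h (oN0 G h a).1 then a else oN0 G h a

/-- the sorting key of a dart -/
def okey (h : V → unitInterval) (a : Dart V d) : Lex (unitInterval × Fin d) :=
  toLex (h a.1, a.2)

theorem okey_inj {h : V → unitInterval} (hh : Injective h) : Injective (okey (d := d) h) := by
  rintro ⟨v, i⟩ ⟨w, j⟩ he
  have h1 : ((h v, i) : unitInterval × Fin d) = (h w, j) := toLex.injective he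
  rw [Prod.mk.injEq] at h1
  rw [hh h1.1, h1.2]

theorem okey_le (h : V → unitInterval) (a b : Dart V d) :
    okey h a ≤ okey h b ↔ h a.1 < h b.1 ∨ (h a.1 = h b.1 ∧ a.2 ≤ b.2) :=
  Prod.Lex.toLex_le_toLex

/-- the ported tree with edge order of an injective labelling -/
noncomputable def OTh [NeZero d] (hG : IsRegTree G d) (h : V → unitInterval) (hh : Injective h) :
    OT G d where
  N0 := oN0 G h
  inv := oN0_inv hG hh
  adj := fun a => nbr_adj hG hh a.1 a.2
  surj := fun v w hw => ⟨prt G d h v w, nbr_prt hG hh hw⟩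
  inj := fun v i j he => by
    have he' : nbr G h v i = nbr G h v j := he
    rw [← prt_nbr hG hh v i, he', prt_nbr hG hh]
  cd := ocd G h
  cd_cases := fun a => by
    unfold ocd
    by_cases h1 : h a.1 < h (oN0 G h a).1
    · rw [if_pos h1]; exact Or.inl rfl
    · rw [if_neg h1]; exact Or.inr rfl
  cd_N0 := fun a => by
    have hne : (oN0 G h a).1 ≠ a.1 := fun h' => (nbr_adj hG hh a.1 a.2).ne h'.symm
    unfold ocd
    rw [oN0_inv hG hh]
    rcases lt_or_gt_of_ne (fun h' => hne (hh h')) with hlt | hlt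
    · rw [if_pos hlt, if_neg (not_lt.mpr hlt.le)]
    · rw [if_neg (not_lt.mpr hlt.le), if_pos hlt]
  lst := fun B => srt (okey h) (((B ×ˢ univ).filter
    (fun a => ocd G h a = a ∧ (oN0 G h a).1 ∈ B) : Finset (Dart V d)))
  lst_nodup := fun B => srt_nodup _ _
  lst_mem := fun B a => mem_srt _ _ _
  lst_filter := fun B' B hB => by
    apply srt_unique (okey_inj hh)
    · exact (srt_nodup _ _).filter _
    · intro a
      rw [List.mem_filter, mem_srt]
      simp only [PT.EB, Finset.mem_filter, Finset.mem_product, Finset.mem_univ, and_true,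
        decide_eq_true_eq]
      constructor
      · intro h1; exact h1.2
      · intro h1; exact ⟨⟨hB h1.1, h1.2.1, hB h1.2.2⟩, h1⟩
    · exact (srt_pairwise _ _).filter _

theorem OTh_N0 [NeZero d] (hG : IsRegTree G d) (h : V → unitInterval) (hh : Injective h)
    (a : Dart V d) : (OTh hG h hh).N0 a = oN0 G h a := rfl

theorem OTh_cd [NeZero d] (hG : IsRegTree G d) (h : V → unitInterval) (hh : Injective h)
    (a : Dart V d) : (OTh hG h hh).cd a = ocd G h a := rfl

theorem OTh_lst [NeZero d] (hG : IsRegTree G d) (h : V → unitInterval) (hh : Injective h)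
    (B : Finset V) : (OTh hG h hh).lst B = srt (okey h) ((OTh hG h hh).toPT.EB B) := rfl

/-! ### transport -/

/-- closed neighbourhood -/
noncomputable def N1 (G : SimpleGraph V) (B : Finset V) : Finset V := B ∪ B.biUnion (nbs G)

theorem subset_N1 (B : Finset V) : B ⊆ N1 G B := Finset.subset_union_left

theorem mem_N1 (hG : IsRegTree G d) {B : Finset V} {v w : V} (hv : v ∈ B) (h : G.Adj v w) :
    w ∈ N1 G B := by
  unfold N1
  rw [Finset.mem_union, Finset.mem_biUnion]
  exact Or.inr ⟨v, hv, (mem_nbs hG).mpr h⟩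

/-- order equivalence of two labellings on `S` -/
def OEq (γ : V ≃ V) (S : Finset V) (h h' : V → unitInterval) : Prop :=
  ∀ v ∈ S, ∀ w ∈ S, (h' (γ v) < h' (γ w) ↔ h v < h w)

theorem adj_iso (γ : G ≃g G) (v w : V) :
    G.Adj (γ.toEquiv v) (γ.toEquiv w) ↔ G.Adj v w := γ.map_adj_iff

theorem rk_rel (hG : IsRegTree G d) (γ : G ≃g G) {B : Finset V} {h h' : V → unitInterval}
    (ho : OEq γ.toEquiv (N1 G B) h h') {v w : V} (hv : v ∈ B) (hw : G.Adj v w) :
    rk G h' (γ.toEquiv v) (γ.toEquiv w) = rk G h v w := by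
  unfold rk
  symm
  refine Finset.card_bij (fun u _ => γ.toEquiv u) ?_ ?_ ?_
  · intro u hu
    rw [Finset.mem_filter, mem_nbs hG] at hu ⊢
    exact ⟨(adj_iso γ v u).mpr hu.1,
      (ho u (mem_N1 hG hv hu.1) w (mem_N1 hG hv hw)).mpr hu.2⟩
  · intro u _ u' _ he
    exact γ.toEquiv.injective he
  · intro u hu
    rw [Finset.mem_filter, mem_nbs hG] at hu
    obtain ⟨u', rfl⟩ := γ.toEquiv.surjective u
    have h1 := (adj_iso γ v u').mp hu.1
    refine ⟨u', ?_, rfl⟩
    rw [Finset.mem_filter, mem_nbs hG]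
    exact ⟨h1, (ho u' (mem_N1 hG hv h1) w (mem_N1 hG hv hw)).mp hu.2⟩

theorem prt_rel [NeZero d] (hG : IsRegTree G d) (γ : G ≃g G) {B : Finset V}
    {h h' : V → unitInterval}
    (ho : OEq γ.toEquiv (N1 G B) h h') {v w : V} (hv : v ∈ B) (hw : G.Adj v w) :
    prt G d h' (γ.toEquiv v) (γ.toEquiv w) = prt G d h v w := by
  apply Fin.ext
  rw [prt_val hG h hw, prt_val hG h' ((adj_iso γ v w).mpr hw), rk_rel hG γ ho hv hw]

theorem nbr_rel (hG : IsRegTree G d) (γ : G ≃g G) {B : Finset V}
    {h h' : V → unitInterval} (hh : Injective h) (hh' : Injective h')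
    (ho : OEq γ.toEquiv (N1 G B) h h') {v : V} (hv : v ∈ B) (i : Fin d) :
    nbr G h' (γ.toEquiv v) i = γ.toEquiv (nbr G h v i) := by
  refine rk_inj hG hh' (nbr_adj hG hh' _ _) ((adj_iso γ _ _).mpr (nbr_adj hG hh v i)) ?_
  rw [rk_nbr hG hh', rk_rel hG γ ho hv (nbr_adj hG hh v i), rk_nbr hG hh]

theorem trel [NeZero d] (hG : IsRegTree G d) (γ : G ≃g G) {B B' : Finset V}
    {h h' : V → unitInterval} (hh : Injective h) (hh' : Injective h')
    (hB : ∀ v, γ.toEquiv v ∈ B' ↔ v ∈ B)
    (ho : OEq γ.toEquiv (N1 G (N1 G B)) h h') :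
    TRel γ.toEquiv (OTh hG h hh) (OTh hG h' hh') B B' := by
  have ho1 : OEq γ.toEquiv (N1 G B) h h' := fun v hv w hw =>
    ho v (subset_N1 _ hv) w (subset_N1 _ hw)
  have hN0 : ∀ a : Dart V d, a.1 ∈ B →
      oN0 G h' (dm γ.toEquiv a) = dm γ.toEquiv (oN0 G h a) := by
    intro a ha
    unfold oN0 dm
    simp only
    rw [nbr_rel hG γ hh hh' ho1 ha]
    rw [prt_rel hG γ ho (mem_N1 hG ha (nbr_adj hG hh a.1 a.2)) (nbr_adj hG hh a.1 a.2).symm]
  have hcd : ∀ a : Dart V d, a.1 ∈ B →
      ocd G h' (dm γ.toEquiv a) = dm γ.toEquiv (ocd G h a) := by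
    intro a ha
    unfold ocd
    rw [hN0 a ha]
    have h1 : (h' (dm γ.toEquiv a).1 < h' (dm γ.toEquiv (oN0 G h a)).1) ↔
        (h a.1 < h (oN0 G h a).1) :=
      ho1 a.1 (subset_N1 _ ha) (oN0 G h a).1 (mem_N1 hG ha (nbr_adj hG hh a.1 a.2))
    by_cases h2 : h a.1 < h (oN0 G h a).1
    · rw [if_pos h2, if_pos (h1.mpr h2)]
    · rw [if_neg h2, if_neg (fun h3 => h2 (h1.mp h3))]
  refine ⟨hB, hN0, hcd, ?_⟩
  rw [OTh_lst, OTh_lst]
  symm
  apply srt_unique (okey_inj hh')
  · exact (srt_nodup _ _).map (dm_inj _)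
  · intro b
    rw [List.mem_map]
    constructor
    · rintro ⟨a, ha, rfl⟩
      rw [mem_srt, PT.mem_EB] at ha
      rw [PT.mem_EB]
      refine ⟨(hB _).mpr ha.1, ?_, ?_⟩
      · have h1 := hcd a ha.1
        rw [OTh_cd]
        rw [h1]
        congr 1
        exact ha.2.1
      · have h1 := hN0 a ha.1
        rw [OTh_N0]
        rw [h1]
        exact (hB _).mpr ha.2.2
    · intro hb
      rw [PT.mem_EB] at hb
      obtain ⟨w, i⟩ := b
      obtain ⟨v, rfl⟩ := γ.toEquiv.surjective w
      have hv : v ∈ B := (hB v).mp hb.1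
      refine ⟨(v, i), ?_, rfl⟩
      rw [mem_srt, PT.mem_EB]
      refine ⟨hv, ?_, ?_⟩
      · have h1 := hcd (v, i) hv
        apply dm_inj γ.toEquiv
        rw [OTh_cd]
        rw [← h1]
        exact hb.2.1
      · have h1 := hN0 (v, i) hv
        have h2 : (oN0 G h' (dm γ.toEquiv (v, i))).1 ∈ B' := hb.2.2
        rw [h1] at h2
        exact (hB _).mp h2
  · rw [List.pairwise_map]
    refine List.Pairwise.imp_of_mem ?_ (srt_pairwise (okey h) _)
    intro a b ha hb hab
    rw [mem_srt, PT.mem_EB] at ha hb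
    rw [okey_le] at hab ⊢
    have h1 := ho1 a.1 (subset_N1 _ ha.1) b.1 (subset_N1 _ hb.1)
    rcases hab with hab | hab
    · exact Or.inl (h1.mpr hab)
    · right
      refine ⟨?_, hab.2⟩
      have h2 := hh hab.1
      rw [dm_fst, dm_fst, h2]

end Order

end FI.Lim
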