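import Pool.Agent.H99.FI.Windows

/-!
# FI, job M2: transport of the kernel and of the windows along a vertex bijection

Covers both the locality (dependence on finitely many data) and the naturality under
automorphisms.
-/

set_option autoImplicit false

namespace FI.Lim

open Finset Function
open scoped Classical

section Kernel

variable {V : Type*} {d : ℕ}

/-- the dart map induced by a vertex bijection -/
def dm (γ : V ≃ V) (a : Dart V d) : Dart V d := (γ a.1, a.2)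

@[simp] theorem dm_fst (γ : V ≃ V) (a : Dart V d) : (dm γ a).1 = γ a.1 := rfl

@[simp] theorem dm_snd (γ : V ≃ V) (a : Dart V d) : (dm γ a).2 = a.2 := rfl

theorem dm_inj (γ : V ≃ V) : Injective (dm (d := d) γ) := by
  rintro ⟨v, i⟩ ⟨w, j⟩ h
  simp only [dm, Prod.mk.injEq] at h
  rw [γ.injective h.1, h.2]

/-- `N'` is the transport of `N` -/
structure Rel (γ : V ≃ V) (B : Finset V) (N N' : Adj V d) : Prop where
  map : ∀ a : Dart V d, a.1 ∈ B → N' (dm γ a) = (N a).map (dm γ)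
  mem : ∀ a b : Dart V d, N a = some b → b.1 ∈ B

/-- transport of states -/
def RelS (γ : V ≃ V) (B : Finset V) (x x' : St V d) : Prop :=
  ∀ v ∈ B, x' (γ v) = x v

variable {γ : V ≃ V} {B : Finset V} {N N' : Adj V d} {x x' : St V d}

theorem col_rel (hx : RelS γ B x x') {a : Dart V d} (ha : a.1 ∈ B) :
    col x' (dm γ a) = col x a := by
  unfold col
  rw [dm_fst, dm_snd, hx _ ha]

theorem dt_rel (hx : RelS γ B x x') {v : V} (hv : v ∈ B) (k : Fin d) :
    dt x' (γ v) k = dm γ (dt x v k) := by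
  unfold dt dm
  rw [hx _ hv]

theorem nx_rel (hN : Rel γ B N N') (hx : RelS γ B x x') (τ : Equiv.Perm (Fin d))
    {a : Dart V d} (ha : a.1 ∈ B) : nx N' x' τ (dm γ a) = (nx N x τ a).map (dm γ) := by
  unfold nx
  rw [col_rel hx ha, dm_fst, dt_rel hx ha]
  exact hN.map _ ha

theorem pos_mem (hN : Rel γ B N N') (τ : Equiv.Perm (Fin d))
    {a : Dart V d} (ha : a.1 ∈ B) (n : ℕ) {f : Dart V d} (h : pos N x τ a n = some f) :
    f.1 ∈ B := by
  cases n with
  | zero =>
    simp only [pos, Option.some.injEq] at h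
    rw [← h]; exact ha
  | succ n =>
    simp only [pos] at h
    rw [Option.bind_eq_some_iff] at h
    obtain ⟨g, _, hg⟩ := h
    exact hN.mem _ _ hg

theorem pos_rel (hN : Rel γ B N N') (hx : RelS γ B x x') (τ : Equiv.Perm (Fin d))
    {a : Dart V d} (ha : a.1 ∈ B) (n : ℕ) :
    pos N' x' τ (dm γ a) n = (pos N x τ a n).map (dm γ) := by
  induction n with
  | zero => rfl
  | succ n ih =>
    simp only [pos]
    rw [ih]
    cases hp : pos N x τ a n with
    | none => rfl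
    | some f =>
      simp only [Option.map_some, Option.bind_some]
      exact nx_rel hN hx τ (pos_mem hN τ ha n hp)

theorem onCh_rel (hN : Rel γ B N N') (hx : RelS γ B x x') (τ : Equiv.Perm (Fin d))
    {a : Dart V d} (ha : a.1 ∈ B) (v : V) :
    onCh N' x' τ (dm γ a) (γ v) ↔ onCh N x τ a v := by
  unfold onCh
  constructor
  · rintro ⟨n, f, hf, hv⟩
    rw [pos_rel hN hx τ ha, Option.map_eq_some_iff] at hf
    obtain ⟨g, hg, rfl⟩ := hf
    exact ⟨n, g, hg, γ.injective hv⟩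
  · rintro ⟨n, f, hf, hv⟩
    exact ⟨n, dm γ f, by rw [pos_rel hN hx τ ha, hf]; rfl, by rw [dm_fst, hv]⟩

theorem flip_rel (hN : Rel γ B N N') (hx : RelS γ B x x') (τ : Equiv.Perm (Fin d))
    {a : Dart V d} (ha : a.1 ∈ B) : RelS γ B (flip N x τ a) (flip N' x' τ (dm γ a)) := by
  intro v hv
  unfold flip
  rw [hx v hv]
  simp only [onCh_rel hN hx τ ha v]

theorem sideOK_rel (hN : Rel γ B N N') (hx : RelS γ B x x') (J : ℕ) (τ : Equiv.Perm (Fin d))
    {a : Dart V d} (ha : a.1 ∈ B) : sideOK J N' x' τ (dm γ a) ↔ sideOK J N x τ a := by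
  unfold sideOK
  rw [hN.map a ha]
  constructor
  · intro h c hc
    have h1 := h (dm γ c) (by rw [hc]; rfl)
    rw [pos_rel hN hx τ (hN.mem _ _ hc), Option.map_eq_none_iff] at h1
    exact h1
  · intro h c hc
    rw [Option.map_eq_some_iff] at hc
    obtain ⟨c', hc', rfl⟩ := hc
    rw [pos_rel hN hx τ (hN.mem _ _ hc'), h c' hc']
    rfl

theorem own_rel (hN : Rel γ B N N') (hx : RelS γ B x x') (J : ℕ) (τ : Equiv.Perm (Fin d))
    (b : Fin d) {a : Dart V d} (ha : a.1 ∈ B) (n : ℕ) :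
    own J N' x' τ b (dm γ a) n ↔ own J N x τ b a n := by
  unfold own
  rw [pos_rel hN hx τ ha]
  constructor
  · rintro ⟨f, hf, h1, h2⟩
    rw [Option.map_eq_some_iff] at hf
    obtain ⟨g, hg, rfl⟩ := hf
    have hgB := pos_mem hN τ ha n hg
    rw [dm_fst, col_rel hx hgB, dt_rel hx hgB] at h1 h2
    exact ⟨g, hg, (sideOK_rel (a := dt x g.1 _) hN hx J _ hgB).mp h1,
      (sideOK_rel (a := dt x g.1 _) hN hx J _ hgB).mp h2⟩
  · rintro ⟨g, hg, h1, h2⟩
    have hgB := pos_mem hN τ ha n hg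
    refine ⟨dm γ g, by rw [hg]; rfl, ?_, ?_⟩
    · rw [dm_fst, col_rel hx hgB, dt_rel hx hgB]
      exact (sideOK_rel (a := dt x g.1 _) hN hx J _ hgB).mpr h1
    · rw [dm_fst, col_rel hx hgB, dt_rel hx hgB]
      exact (sideOK_rel (a := dt x g.1 _) hN hx J _ hgB).mpr h2

theorem cntOwn_rel (hN : Rel γ B N N') (hx : RelS γ B x x') (J : ℕ) (τ : Equiv.Perm (Fin d))
    (b : Fin d) {a : Dart V d} (ha : a.1 ∈ B) (j : ℕ) :
    cntOwn J N' x' τ b (dm γ a) j = cntOwn J N x τ b a j := by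
  unfold cntOwn
  simp only [own_rel hN hx J τ b ha]

theorem cntOth_rel (hN : Rel γ B N N') (hx : RelS γ B x x') (J : ℕ) (τ : Equiv.Perm (Fin d))
    (b : Fin d) {a : Dart V d} (ha : a.1 ∈ B) (j : ℕ) :
    cntOth J N' x' τ b (dm γ a) j = cntOth J N x τ b a j :=
  cntOwn_rel hN (flip_rel hN hx τ ha) J τ b ha j

theorem sel_rel (hN : Rel γ B N N') (hx : RelS γ B x x') (P : Par) (τ : Equiv.Perm (Fin d))
    (b : Fin d) {a : Dart V d} (ha : a.1 ∈ B) (j : ℕ) :
    sel P N' x' τ b (dm γ a) j ↔ sel P N x τ b a j := by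
  unfold sel
  rw [own_rel hN hx P.J τ b ha, cntOwn_rel hN hx P.J τ b ha, cntOth_rel hN hx P.J τ b ha]

theorem avail_rel (hN : Rel γ B N N') (hx : RelS γ B x x') (P : Par) (τ : Equiv.Perm (Fin d))
    (b : Fin d) {a : Dart V d} (ha : a.1 ∈ B) :
    avail P N' x' τ b (dm γ a) = avail P N x τ b a := by
  unfold avail
  simp only [sel_rel hN hx P τ b ha]

theorem phi_rel (hN : Rel γ B N N') (hx : RelS γ B x x') (τ : Equiv.Perm (Fin d))
    (b : Fin d) {a : Dart V d} (ha : a.1 ∈ B) (n : ℕ) :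
    RelS γ B (phi N x τ b a n) (phi N' x' τ b (dm γ a) n) := by
  intro v hv
  unfold phi
  rw [pos_rel hN hx τ ha]
  cases hp : pos N x τ a n with
  | none =>
    simp only [Option.map_none]
    exact hx v hv
  | some f =>
    have hf : f.1 ∈ B := pos_mem hN τ ha n hp
    simp only [Option.map_some]
    have e1 : (γ v = (dm γ f).1) ↔ (v = f.1) := by
      rw [dm_fst]; exact γ.injective.eq_iff
    have e2 : (∃ i g, i < n ∧ pos N' x' τ (dm γ a) i = some g ∧ g.1 = γ v) ↔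
        (∃ i g, i < n ∧ pos N x τ a i = some g ∧ g.1 = v) := by
      constructor
      · rintro ⟨i, g, hi, hg, hgv⟩
        rw [pos_rel hN hx τ ha, Option.map_eq_some_iff] at hg
        obtain ⟨g', hg', rfl⟩ := hg
        exact ⟨i, g', hi, hg', γ.injective hgv⟩
      · rintro ⟨i, g, hi, hg, hgv⟩
        exact ⟨i, dm γ g, hi, by rw [pos_rel hN hx τ ha, hg]; rfl, by rw [dm_fst, hgv]⟩
    have e3 : ∀ (k : Fin d) (σ : Equiv.Perm (Fin d)),
        (∃ c, N' (dt x' (dm γ f).1 k) = some c ∧ onCh N' x' σ c (γ v)) ↔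
        (∃ c, N (dt x f.1 k) = some c ∧ onCh N x σ c v) := by
      intro k σ
      rw [dm_fst, dt_rel hx hf, hN.map (dt x f.1 k) hf]
      constructor
      · rintro ⟨c, hc, h⟩
        rw [Option.map_eq_some_iff] at hc
        obtain ⟨c', hc', rfl⟩ := hc
        exact ⟨c', hc', (onCh_rel hN hx σ (hN.mem _ _ hc') v).mp h⟩
      · rintro ⟨c, hc, h⟩
        exact ⟨dm γ c, by rw [hc]; rfl, (onCh_rel hN hx σ (hN.mem _ _ hc) v).mpr h⟩
    rw [col_rel hx hf, hx v hv]
    simp only [e1, e2, e3]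

theorem kern_rel [NeZero d] (hN : Rel γ B N N') (hx : RelS γ B x x') (P : Par) (ξ : ℕ)
    {a b' : Dart V d} (ha : a.1 ∈ B) (hb : b'.1 ∈ B) :
    RelS γ B (kern P N x ξ a b') (kern P N' x' ξ (dm γ a) (dm γ b')) := by
  unfold kern
  rw [col_rel hx ha, col_rel hx hb]
  by_cases h : col x a = col x b'
  · rw [if_pos h, if_pos h]; exact hx
  · rw [if_neg h, if_neg h, avail_rel hN hx P _ _ ha]
    cases (avail P N x (Equiv.swap (col x a) (col x b'))
        (third (col x a) (col x b')) a)[ξ]? with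
    | none => exact flip_rel hN hx _ hb
    | some j => exact phi_rel hN hx _ _ ha _

end Kernel

section Windows

variable {V : Type*} {G : SimpleGraph V} {d : ℕ}

/-- transport of the ported tree in the volumes `B`, `B'` -/
structure TRel (γ : V ≃ V) (T T' : OT G d) (B B' : Finset V) : Prop where
  memB : ∀ v, γ v ∈ B' ↔ v ∈ B
  N0 : ∀ a : Dart V d, a.1 ∈ B → T'.N0 (dm γ a) = dm γ (T.N0 a)
  cd : ∀ a : Dart V d, a.1 ∈ B → T'.cd (dm γ a) = dm γ (T.cd a)
  lst : T'.lst B' = (T.lst B).map (dm γ)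

/-- transport of configurations -/
structure RelC (γ : V ≃ V) (T : PT G d) (B : Finset V) (ω ω' : Cfg V d) : Prop where
  st : RelS γ B ω.1 ω'.1
  ed : ∀ e ∈ T.EB B, ω'.2 (dm γ e) = ω.2 e

variable {γ : V ≃ V} {T T' : OT G d} {B B' : Finset V}

theorem nof_rel (hT : TRel γ T T' B B') {u u' : Dart V d → Bool}
    (hu : ∀ e ∈ T.toPT.EB B, u' (dm γ e) = u e) :
    Rel γ B (T.toPT.nof B u) (T'.toPT.nof B' u') := by
  refine ⟨fun a ha => ?_, fun a b h => ?_⟩
  · unfold PT.nof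
    rw [hT.N0 a ha, hT.cd a ha]
    have e1 : (dm γ a).1 ∈ B' ↔ a.1 ∈ B := hT.memB _
    have e2 : (dm γ (T.N0 a)).1 ∈ B' ↔ (T.N0 a).1 ∈ B := hT.memB _
    by_cases h2 : (T.N0 a).1 ∈ B
    · have h3 : u' (dm γ (T.cd a)) = u (T.cd a) := hu _ (T.toPT.cd_mem_EB ha h2)
      by_cases h4 : u (T.cd a) = true
      · rw [if_pos ⟨e1.mpr ha, e2.mpr h2, by rw [h3, h4]⟩, if_pos ⟨ha, h2, h4⟩]
        rfl
      · rw [if_neg (fun h => h4 (by rw [← h3]; exact h.2.2)), if_neg (fun h => h4 h.2.2)]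
        rfl
    · rw [if_neg (fun h => h2 (e2.mp h.2.1)), if_neg (fun h => h2 h.2.1)]
      rfl
  · rw [PT.nof_some] at h
    rw [← h.2.2.2]
    exact h.2.1

theorem hs_rel [NeZero d] (hT : TRel γ T T' B B') (P : Par) {ω ω' : Cfg V d}
    (hω : RelC γ T.toPT B ω ω') {e : Dart V d} (he : e ∈ T.toPT.EB B) (ξ : ℕ) :
    RelC γ T.toPT B (T.toPT.hs P B (fun _ => true) e ξ ω)
      (T'.toPT.hs P B' (fun _ => true) (dm γ e) ξ ω') := by
  have heB := T.toPT.mem_EB.mp he
  unfold PT.hs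
  rw [hω.ed e he]
  by_cases h : ω.2 e = false
  · rw [if_pos ⟨rfl, h⟩, if_pos ⟨rfl, h⟩]
    refine ⟨?_, ?_⟩
    · simp only
      rw [hT.N0 e heB.1]
      exact kern_rel (nof_rel hT hω.ed) hω.st P ξ heB.1 heB.2.2
    · intro f hf
      simp only
      by_cases hfe : f = e
      · subst hfe
        rw [Function.update_self, Function.update_self]
      · rw [Function.update_of_ne hfe,
          Function.update_of_ne (fun h' => hfe (dm_inj γ h')), hω.ed f hf]
  · rw [if_neg (fun h' => h h'.2), if_neg (fun h' => h h'.2)]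
    exact hω

theorem runL_rel [NeZero d] (hT : TRel γ T T' B B') (P : Par)
    {ζ ζ' : Dart V d → Bool × ℕ} (L : List (Dart V d)) (hL : ∀ e ∈ L, e ∈ T.toPT.EB B)
    (hζ : ∀ e ∈ L, ζ' (dm γ e) = ζ e) :
    ∀ {ω ω' : Cfg V d}, RelC γ T.toPT B ω ω' →
    RelC γ T.toPT B (runL (T.toPT.hs P B (fun _ => true)) ζ L ω)
      (runL (T'.toPT.hs P B' (fun _ => true)) ζ' (L.map (dm γ)) ω') := by
  induction L with
  | nil => intro ω ω' h; exact h
  | cons e L ih =>
    intro ω ω' h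
    simp only [List.map_cons, runL]
    have he : ζ' (dm γ e) = ζ e := hζ e (List.mem_cons_self)
    rw [he]
    apply ih (fun f hf => hL f (List.mem_cons_of_mem _ hf))
      (fun f hf => hζ f (List.mem_cons_of_mem _ hf))
    by_cases hb : (ζ e).1 = true
    · rw [if_pos hb, if_pos hb]
      exact hs_rel hT P h (hL e List.mem_cons_self) _
    · rw [if_neg hb, if_neg hb]
      exact h

theorem cfg_rel [NeZero d] (hT : TRel γ T T' B B') (P : ℕ → Par) {η η' : V → Nz d} (k : ℕ)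
    (h1 : ∀ v ∈ B, (η' (γ v)).1 = (η v).1)
    (h2 : ∀ v ∈ B, ∀ j < k, (η' (γ v)).2 j = (η v).2 j) :
    RelC γ T.toPT B (T.cfg P B η k) (T'.cfg P B' η' k) := by
  induction k with
  | zero =>
    refine ⟨fun v hv => h1 v hv, fun e _ => rfl⟩
  | succ k ih =>
    simp only [OT.cfg]
    rw [hT.lst]
    refine runL_rel hT (P k) (T.lst B) (fun e he => (T.lst_mem B e).mp he) ?_
      (ih fun v hv j hj => h2 v hv j (Nat.lt_succ_of_lt hj))
    intro e he
    have heB := T.toPT.mem_EB.mp ((T.lst_mem B e).mp he)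
    simp only [dm_fst, dm_snd]
    rw [h2 e.1 heB.1 k (Nat.lt_succ_self k)]

end Windows

end FI.Lim
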